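import Pool.Agent.K7.H35.C.Main
import Pool.Agent.Y26.GE.KUHN

/-!
# Short periodic geodesics for all metrics with a circle of isometries which has a fixed point

`X` is a compact metric space in which any two points are joined by a minimal geodesic and minimal
geodesics between points at distance less than `r` are unique (every closed Riemannian manifold).

1. Let `σ` be an isometric involution of `X` which is joined to the identity by a homotopy through
   `lam`-Lipschitz maps fixing every point of a set `P`, and let every point have a distance of at most `R` from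
   `P`. Let `K` be a compact metric space of dimension at most `q` and `f : K → X` a map which is constant, equal
   to a point `p` of `P`, on `A`. Then `f` can be deformed relatively to `A` into the fixed point set of `σ`, or
   there is a periodic geodesic of length at most `4 (q + 1) lam R`. In particular there is such a geodesic, with
   `q = n`, if `X` has dimension at most `n` and cannot be deformed into the fixed point set of `σ`, and if
   there is an element of the `q`-th homotopy group of `X` at `p` which does not come from this set.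
2. Let the circle act on `X`, not trivially, by isometries. If the action has a fixed point, `X` has dimension at
   most `n` and `X` cannot be deformed into a proper subset (closed `n`-manifolds), then there is a periodic
   geodesic of length at most `4 (n + 1) R`, `R` the largest distance from the set of fixed points of the circle,
   and in particular one of length at most `4 (n + 1) diam X`.

So the question has a positive answer, with `c(n) = 4 (n + 1)`, for all Riemannian metrics on closed
`n`-manifolds for which a circle acts by isometries with a fixed point of any kind (the components of the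
fixed point set may have any codimensions, there may be any exceptional orbits). These are the metrics for which
a compact connected Lie group of isometries has an infinite isotropy group, for example all metrics with an
infinite group of isometries on the closed manifolds of nonzero Euler characteristic (such as all simply
connected closed 4-manifolds).

Proof. For `y` in `K` a curve from `f y` to `σ (f y)` is built from `q + 1` excursions from `f y` to `P`; at
the `j`-th visit of `P` the homotopy from the identity to `σ` is advanced by the `j`-th weight of a partition of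
unity. The curve and its image under `σ` form a closed curve of length at most `4 (q + 1) lam R`. The Birkhoff
curve shortening process keeps the symmetry; if there is no periodic geodesic, it moves `f y` to a point near to
its image under `σ`, and this point is moved to the midpoint.
-/

set_option autoImplicit false

open Set Topology Filter

namespace Pool.Agent.Results.MP_3eff7f_gt.CircleActions

open Pool.Agent.Y489.GE Pool.Agent.K7.H35.C

/-- the points fixed by the circle -/
def FixC (X : Type) [MulAction Circle X] : Set X := {x | ∀ z : Circle, z • x = x}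

/-- rotations by rational multiples of the full angle are dense -/
theorem dyadic (θ : ℝ) : ∃ j : ℕ → ℤ, Tendsto (fun k : ℕ => (j k : ℝ) * (2 * Real.pi / 2 ^ k)) atTop
    (𝓝 θ) := by
  refine ⟨fun k => ⌊θ / (2 * Real.pi / 2 ^ k)⌋, ?_⟩
  have hpos : ∀ k : ℕ, (0 : ℝ) < 2 * Real.pi / 2 ^ k := fun k => by
    have := Real.pi_pos
    positivity
  have h0 : Tendsto (fun k : ℕ => 2 * Real.pi / 2 ^ k) atTop (𝓝 0) := by
    have h1 : Tendsto (fun k : ℕ => 2 * Real.pi * (1 / 2) ^ k) atTop (𝓝 (2 * Real.pi * 0)) :=
      (tendsto_pow_atTop_nhds_zero_of_lt_one (by norm_num) (by norm_num)).const_mul _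
    rw [mul_zero] at h1
    refine h1.congr fun k => ?_
    rw [one_div, inv_pow]
    rfl
  rw [tendsto_iff_dist_tendsto_zero]
  refine squeeze_zero (fun k => dist_nonneg) (fun k => ?_) h0
  rw [Real.dist_eq, abs_sub_comm]
  have h1 := Int.floor_le (θ / (2 * Real.pi / 2 ^ k))
  have h2 := Int.lt_floor_add_one (θ / (2 * Real.pi / 2 ^ k))
  rw [le_div_iff₀ (hpos k)] at h1
  rw [div_lt_iff₀ (hpos k)] at h2
  rw [abs_of_nonneg (by linarith)]
  linarith

/-- an element of order two -/
theorem exists_half (X : Type) [MetricSpace X] [MulAction Circle X] [ContinuousSMul Circle X]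
    (hne : ∃ (z : Circle) (x : X), z • x ≠ x) :
    ∃ θ : ℝ, (∃ x : X, Circle.exp θ • x ≠ x) ∧ ∀ x : X, Circle.exp θ • Circle.exp θ • x = x := by
  by_contra hcon
  push Not at hcon
  have h1 : ∀ k : ℕ, ∀ x : X, Circle.exp (2 * Real.pi / 2 ^ k) • x = x := by
    intro k
    induction k with
    | zero => intro x; rw [pow_zero, div_one, Circle.exp_two_pi, one_smul]
    | succ k ih =>
      by_contra hx
      push Not at hx
      obtain ⟨y, hy⟩ := hcon _ hx
      apply hy
      rw [← mul_smul, ← Circle.exp_add]
      have e : 2 * Real.pi / 2 ^ (k + 1) + 2 * Real.pi / 2 ^ (k + 1) = 2 * Real.pi / 2 ^ k := by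
        rw [pow_succ]
        field_simp
        ring
      rw [e, ih]
  have h2 : ∀ (k : ℕ) (n : ℕ) (x : X), Circle.exp (n * (2 * Real.pi / 2 ^ k)) • x = x := by
    intro k n x
    induction n with
    | zero => rw [Nat.cast_zero, zero_mul, Circle.exp_zero, one_smul]
    | succ n ih =>
      have e : ((n + 1 : ℕ) : ℝ) * (2 * Real.pi / 2 ^ k) =
          n * (2 * Real.pi / 2 ^ k) + 2 * Real.pi / 2 ^ k := by push_cast; ring
      rw [e, Circle.exp_add, mul_smul, h1, ih]
  have h3 : ∀ (k : ℕ) (j : ℤ) (x : X), Circle.exp (j * (2 * Real.pi / 2 ^ k)) • x = x := by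
    intro k j x
    obtain ⟨n, rfl | rfl⟩ := j.eq_nat_or_neg
    · exact_mod_cast h2 k n x
    · have h4 := h2 k n x
      conv_lhs => rw [← h4]
      rw [← mul_smul, ← Circle.exp_add]
      have e : ((-(n : ℤ) : ℤ) : ℝ) * (2 * Real.pi / 2 ^ k) + n * (2 * Real.pi / 2 ^ k) = 0 := by
        push_cast
        ring
      rw [e, Circle.exp_zero, one_smul]
  obtain ⟨z, x, hzx⟩ := hne
  apply hzx
  obtain ⟨j, hj⟩ := dyadic (z : ℂ).arg
  have h4 : Tendsto (fun k : ℕ => Circle.exp ((j k : ℝ) * (2 * Real.pi / 2 ^ k)) • x) atTop
      (𝓝 (Circle.exp (z : ℂ).arg • x)) := by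
    have h5 : Continuous fun t : ℝ => Circle.exp t • x :=
      (map_continuous Circle.exp).smul continuous_const
    exact (h5.tendsto _).comp hj
  have h6 : Tendsto (fun k : ℕ => Circle.exp ((j k : ℝ) * (2 * Real.pi / 2 ^ k)) • x) atTop
      (𝓝 x) := by
    simp only [h3]
    exact tendsto_const_nhds
  have h7 := tendsto_nhds_unique h4 h6
  rwa [Circle.exp_arg] at h7

theorem result :
    (∀ (X : Type) [MetricSpace X] [CompactSpace X] (r lam R : ℝ) (σ : X → X) (P : Set X)
      (g : ℝ → X → X), 0 < r → GeodSpace X → UniqGeod X r → Isometry σ → (∀ x, σ (σ x) = x) →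
      Turn X σ P lam g → P.Nonempty → (∀ x : X, ∃ z ∈ P, dist z x ≤ R) →
      (∀ q : ℕ, ¬ ClosedGeod X (4 * (q + 1) * lam * R) →
        ∀ (K : Type) [MetricSpace K] [CompactSpace K], CovDim K q → ∀ (f : K → X) (A : Set K),
        Continuous f → ∀ p ∈ P, (∀ k ∈ A, f k = p) →
        ∃ H : K → ℝ → X, Continuous (fun z : K × ℝ => H z.1 z.2) ∧
          (∀ k, σ (H k 0) = H k 0) ∧ (∀ k, H k 1 = f k) ∧ ∀ k ∈ A, ∀ s, H k s = p) ∧
      (∀ n : ℕ, CovDim X n →
        (¬ ∃ g : C(X, X), (∀ x, σ (g x) = g x) ∧ g.Homotopic (ContinuousMap.id X)) →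
        ClosedGeod X (4 * (n + 1) * lam * R)) ∧
      ∀ (q : ℕ) (p : X) (f : GenLoop (Fin q) X p), p ∈ P →
        (¬ ∃ g : GenLoop (Fin q) X p, (∀ t, σ (g t) = g t) ∧ GenLoop.Homotopic g f) →
        ClosedGeod X (4 * (q + 1) * lam * R)) ∧
    ∀ (X : Type) [MetricSpace X] [CompactSpace X] [MulAction Circle X] [ContinuousSMul Circle X]
      (r : ℝ) (n : ℕ), 0 < r → GeodSpace X → UniqGeod X r →
      (∀ (z : Circle) (x y : X), dist (z • x) (z • y) = dist x y) →
      (∃ (z : Circle) (x : X), z • x ≠ x) → (FixC X).Nonempty → CovDim X n →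
      (∀ g : C(X, X), g.Homotopic (ContinuousMap.id X) → Function.Surjective g) →
      (∀ R : ℝ, (∀ x : X, ∃ z ∈ FixC X, dist z x ≤ R) → ClosedGeod X (4 * (n + 1) * R)) ∧
      ClosedGeod X (4 * (n + 1) * Metric.diam (univ : Set X)) := by
  have main : ∀ (X : Type) [MetricSpace X] [CompactSpace X] (r lam R : ℝ) (σ : X → X) (P : Set X)
      (g : ℝ → X → X), 0 < r → GeodSpace X → UniqGeod X r → Isometry σ → (∀ x, σ (σ x) = x) →
      Turn X σ P lam g → P.Nonempty → (∀ x : X, ∃ z ∈ P, dist z x ≤ R) →
      (∀ q : ℕ, ¬ ClosedGeod X (4 * (q + 1) * lam * R) →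
        ∀ (K : Type) [MetricSpace K] [CompactSpace K], CovDim K q → ∀ (f : K → X) (A : Set K),
        Continuous f → ∀ p ∈ P, (∀ k ∈ A, f k = p) →
        ∃ H : K → ℝ → X, Continuous (fun z : K × ℝ => H z.1 z.2) ∧
          (∀ k, σ (H k 0) = H k 0) ∧ (∀ k, H k 1 = f k) ∧ ∀ k ∈ A, ∀ s, H k s = p) ∧
      (∀ n : ℕ, CovDim X n →
        (¬ ∃ g : C(X, X), (∀ x, σ (g x) = g x) ∧ g.Homotopic (ContinuousMap.id X)) →
        ClosedGeod X (4 * (n + 1) * lam * R)) ∧
      ∀ (q : ℕ) (p : X) (f : GenLoop (Fin q) X p), p ∈ P →
        (¬ ∃ g : GenLoop (Fin q) X p, (∀ t, σ (g t) = g t) ∧ GenLoop.Homotopic g f) →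
        ClosedGeod X (4 * (q + 1) * lam * R) := by
    intro X _ _ r lam R σ P g hr hX hU hσ hσ2 hg hP hR
    refine ⟨?_, ?_, ?_⟩
    · intro q hno K _ _ hK f A hf p hp hA
      exact core hX hr hU hσ hσ2 hg hR q K hK f hf hp A hA hno
    · intro n hC hdef
      by_contra hno
      apply hdef
      obtain ⟨p, hp⟩ := hP
      obtain ⟨H, h1, h2, h3, _⟩ := core hX hr hU hσ hσ2 hg hR n X hC (fun x => x) continuous_id
        hp ∅ (fun k hk => hk.elim) hno
      refine ⟨⟨fun x => H x 0, h1.comp (continuous_id.prodMk continuous_const)⟩, h2,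
        ⟨⟨⟨fun z => H z.2 z.1.1, ?_⟩, ?_, ?_⟩⟩⟩
      · exact h1.comp (continuous_snd.prodMk (continuous_subtype_val.comp continuous_fst))
      · intro k
        rfl
      · intro k
        exact h3 k
    · intro q p f hp hdef
      by_contra hno
      apply hdef
      obtain ⟨H, h1, h2, h3, h4⟩ := core hX hr hU hσ hσ2 hg hR q _
        (Pool.Agent.Y26.GE.t_KUHN q) (fun t => f t) (map_continuous f.1) hp
        (Cube.boundary (Fin q)) f.2 hno
      refine ⟨⟨⟨fun t => H t 0, h1.comp (continuous_id.prodMk continuous_const)⟩,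
        fun t ht => h4 t ht 0⟩, h2, ⟨⟨⟨⟨fun z => H z.2 z.1.1, ?_⟩, ?_, ?_⟩, ?_⟩⟩⟩
      · exact h1.comp (continuous_snd.prodMk (continuous_subtype_val.comp continuous_fst))
      · intro k
        rfl
      · intro k
        exact h3 k
      · intro t k hk
        exact (h4 k hk _).trans (h4 k hk 0).symm
  refine ⟨main, ?_⟩
  intro X _ _ _ _ r n hr hX hU hiso hne hfix hdim hsurj
  obtain ⟨θ, ⟨x₀, hx₀⟩, hθ⟩ := exists_half X hne
  have hturn : Turn X (fun x => Circle.exp θ • x) (FixC X) 1
      (fun t x => Circle.exp (t * θ) • x) := by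
    refine ⟨?_, fun x => ?_, fun x => ?_, fun t x y => ?_, fun t z hz => hz _⟩
    · exact ((map_continuous Circle.exp).comp (continuous_fst.mul continuous_const)).smul
        continuous_snd
    · rw [zero_mul, Circle.exp_zero, one_smul]
    · rw [one_mul]
    · rw [one_mul, hiso]
  have h1 : ∀ R : ℝ, (∀ x : X, ∃ z ∈ FixC X, dist z x ≤ R) → ClosedGeod X (4 * (n + 1) * R) := by
    intro R hR
    have h2 := (main X r 1 R (fun x => Circle.exp θ • x) (FixC X) _ hr hX hU
      (Isometry.of_dist_eq fun x y => hiso _ x y) hθ hturn hfix hR).2.1 n hdim (by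
        rintro ⟨g, hg1, hg2⟩
        obtain ⟨x, hx⟩ := hsurj g hg2 x₀
        apply hx₀
        rw [← hx]
        exact hg1 x)
    rwa [mul_one] at h2
  refine ⟨h1, ?_⟩
  have hbd : Bornology.IsBounded (univ : Set X) := isCompact_univ.isBounded
  obtain ⟨p, hp⟩ := hfix
  exact h1 _ fun x => ⟨p, hp, Metric.dist_le_diam_of_mem hbd (mem_univ _) (mem_univ _)⟩

end Pool.Agent.Results.MP_3eff7f_gt.CircleActions
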