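import Pool.Agent.K7.H35.Z.Main

/-!
# The constant of Q2 is larger than two in every dimension at least three

`E N` is the euclidean space of dimension `N` and the metric considered on its unit sphere is
`rho t ^ 2` times the round metric, where `rho t x = 1 + t * ∑ i, x i ^ 3`.  `IsGeodesic ρ γ`: `γ`
is a unit speed geodesic of the metric `ρ ^ 2` times the round metric, so that the length of a
periodic geodesic is its period.  `Joined ρ x y D`: `x` and `y` are joined by a smooth curve on the
sphere whose length for this metric is at most `D`.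
-/

set_option autoImplicit false

namespace Pool.Agent.Results.MP_3eff7f_gt.LongerThanTwoDiameters

open Pool.Agent.K7.H35.Z

/-- For every `n ≥ 3` there are `c, t₀ > 0` such that, for `0 < t < t₀`, the Riemannian metric
`(1 + t * ∑ i, x i ^ 3) ^ 2` times the round metric on the unit sphere `S^n` has diameter at most
some `D > 0` while all its periodic geodesics have length at least `(2 + c t) D`. -/
theorem result (n : ℕ) (hn : 3 ≤ n) :
    ∃ c t₀ : ℝ, 0 < c ∧ 0 < t₀ ∧ ∀ t : ℝ, 0 < t → t < t₀ →
      (∀ x : E (n + 1), ‖x‖ = 1 → 0 < rho t x) ∧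
      ∃ D : ℝ, 0 < D ∧ (∀ x y : E (n + 1), ‖x‖ = 1 → ‖y‖ = 1 → Joined (rho t) x y D) ∧
        ∀ (γ : ℝ → E (n + 1)) (T : ℝ), IsGeodesic (rho t) γ → 0 < T → (∀ s, γ (s + T) = γ s) →
          (2 + c * t) * D ≤ T := by
  obtain ⟨c, t₀, h1, h2, h3, h4⟩ := main (N := n + 1) (by omega)
  refine ⟨c, t₀, h1, h2, fun t ht htt => ⟨fun x hx => ?_, h4 t ht htt⟩⟩
  have h5 := (rho_bounds ht hx).1
  linarith

end Pool.Agent.Results.MP_3eff7f_gt.LongerThanTwoDiameters
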