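import Pool.Agent.K7.H35.M.Mirror

/-!
# Short periodic geodesics from isometric involutions whose fixed points are not connected

`X` is a compact metric space in which any two points are joined by a minimal geodesic and minimal
geodesics between points at distance less than `r` are unique (every closed Riemannian manifold).
`X ≃ᵢ X` is the group of isometries of `X`.

1. Let `S` be a set of isometric involutions such that `(σ τ) ^ m = 1` for all `σ`, `τ` in `S`, and
   let `A`, `B` be disjoint closed sets the union of which is the set of all points fixed by some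
   `σ` in `S`. Then for all `a ∈ A`, `b ∈ B` there is a closed geodesic of length at most
   `2 m dist a b`.
2. If `S` is finite and nonempty and the set of the points fixed by some `σ` in `S` is not connected
   (or empty), there is a closed geodesic of length at most `2 m diam X`. In particular, there is a
   closed geodesic of length at most `2 diam X` if the fixed point set of some isometric involution
   is not connected.
3. If `φ` is an isometry without fixed points and `φ ^ m = 1`, there is for every `x` a closed
   geodesic of length at most `m dist x (φ x)`.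
-/

set_option autoImplicit false

open Set Topology

namespace Pool.Agent.Results.MP_3eff7f_gt.MirrorInvolutions

open Pool.Agent.Y489.GE Pool.Agent.K7.H35.M

theorem result (X : Type) [MetricSpace X] [CompactSpace X] [Nonempty X] (r : ℝ) (hr : 0 < r)
    (hX : GeodSpace X) (hU : UniqGeod X r) :
    (∀ (S : Set (X ≃ᵢ X)) (m : ℕ), 1 ≤ m → (∀ σ ∈ S, σ * σ = 1) →
      (∀ σ ∈ S, ∀ τ ∈ S, (σ * τ) ^ m = 1) → ∀ A B : Set X, IsClosed A → IsClosed B →
      Disjoint A B → A ∪ B = {x | ∃ σ ∈ S, σ x = x} → ∀ a ∈ A, ∀ b ∈ B,
        ClosedGeod X (2 * m * dist a b)) ∧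
    (∀ (S : Set (X ≃ᵢ X)) (m : ℕ), S.Finite → S.Nonempty → 1 ≤ m → (∀ σ ∈ S, σ * σ = 1) →
      (∀ σ ∈ S, ∀ τ ∈ S, (σ * τ) ^ m = 1) → ¬ IsConnected {x | ∃ σ ∈ S, σ x = x} →
        ClosedGeod X (2 * m * Metric.diam (univ : Set X))) ∧
    (∀ σ : X ≃ᵢ X, σ * σ = 1 → ¬ IsConnected {x | σ x = x} →
      ClosedGeod X (2 * Metric.diam (univ : Set X))) ∧
    ∀ (φ : X ≃ᵢ X) (m : ℕ), 1 ≤ m → φ ^ m = 1 → (∀ x, φ x ≠ x) → ∀ x,
      ClosedGeod X (m * dist x (φ x)) := by
  refine ⟨fun S m hm h1 h2 A B hA hB hAB hc a ha b hb =>
      mirror hX hr hU S m hm h1 h2 A B hA hB hAB hc a b ha hb,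
    fun S m hS hne hm h1 h2 hc => mirror_diam hX hr hU S hS hne m hm h1 h2 hc, ?_,
    fun φ m hm h1 h2 x => free_isometry hX φ m hm h1 h2 x⟩
  intro σ h1 h2
  have h := mirror_diam hX hr hU {σ} (finite_singleton σ) (singleton_nonempty σ) 1 le_rfl
    (by simpa using h1) (by simpa using h1) (by simpa using h2)
  simpa using h

end Pool.Agent.Results.MP_3eff7f_gt.MirrorInvolutions
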