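import Pool.Agent.K7.H35.R.Main

/-!
# Short periodic geodesics for all metrics invariant under a reflection or a rotation

`X` is a compact metric space in which any two points are joined by a minimal geodesic, and whose
distance is locally convex (`LocConv`); this holds for every closed Riemannian manifold. Let `ι` be an
isometric involution with fixed point set `F`. Only one component `F₀` of `F` (more generally a part of `F` such
that `F₀` and `F \ F₀` are closed) is assumed to have a special form: `ι` is near to `F₀` a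

* reflection: `F₀` is locally the common boundary of two parts exchanged by `ι` (on a Riemannian manifold: `F₀` is a
  component of codimension one), or, more generally, a
* half turn: there is a group `G` of isometries containing `ι` which commute with `ι` and fix `F₀`
  pointwise, such that for points `u`, `w` near to a point of `F₀` there is `g ∈ G` such that a minimal geodesic
  from `u` to `g w` meets `F₀` (on a Riemannian manifold: `G` acts transitively on the unit normal vectors at
  every point of `F₀`, e.g. a circle acting by rotations around the component `F₀` of codimension two).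

Let every point have a distance of at most `R` from `F` (e.g. `R = diam X`).

1. For `q ≥ 1` either there is a periodic geodesic of length at most `4 q R`, or every map of pairs
   `(K, A) → (X, F)`, `K` compact metric of dimension at most `q`, is homotopic relative to `A` to a map into
   `F`.
2. If `X` has dimension at most `n` and cannot be deformed into `F` (e.g. `X` a closed `n`-manifold, `ι ≠ 1`),
   then there is a periodic geodesic of length at most `4 n R`, and one of length at most `4 n diam X`.

No homogeneity of `X` or `F` is assumed, nor that `F` is contractible in `X`, connected or simply connected.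

Proof. If `F ≠ F₀`, a shortest path from `F₀` to `F \ F₀` closes up after a reflection. Let `F = F₀`. A chain is a
polygon with `q + 1` distinguished vertices (marks), some of which are restricted to `F`;
it runs from every mark through the point `f(k)` of `X` to the following mark. Chains are shortened by a
minimizing movement. A chain which cannot be shortened bends only at `F`, where the tangential part of its
velocity is preserved; the elements of `G` at the bends unfold it to a geodesic which begins and ends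
orthogonally to `F`, and this geodesic closes up after two reflections. If there are no such chains, then for
every nonempty set of marks restricted to `F` all the chains shrink to points of `F`, and the flows for the
different sets are put together along `K`.
-/

set_option autoImplicit false

open Set Topology Filter

namespace Pool.Agent.Results.MP_3eff7f_gt.ReflectionsAndRotations

open Pool.Agent.Y489.GE Pool.Agent.K7.H35.R

/-- the fixed point set -/
def Fx {X : Type} [MetricSpace X] (ι : X ≃ᵢ X) : Set X := {x | ι x = x}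

/-- `F₀` is a nonempty union of components of the fixed point set (`F₀` and its complement in the fixed point
set are closed) -/
def Part {X : Type} [MetricSpace X] (ι : X ≃ᵢ X) (F₀ : Set X) : Prop :=
  F₀.Nonempty ∧ F₀ ⊆ Fx ι ∧ IsClosed F₀ ∧ IsClosed (Fx ι \ F₀)

/-- `ι` is a reflection near to a part `F₀` of its fixed point set: balls of a fixed radius with centre in `F₀` are
covered by two closed sets which are exchanged by `ι` and meet inside of the ball only in points of `F₀` -/
def Reflection {X : Type} [MetricSpace X] (ι : X ≃ᵢ X) : Prop :=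
  ∃ F₀ : Set X, Part ι F₀ ∧ ∃ δ : ℝ, 0 < δ ∧ ∀ y ∈ F₀, ∃ D : Set X, IsClosed D ∧
    Metric.ball y δ ⊆ D ∪ ι '' D ∧ D ∩ ι '' D ∩ Metric.ball y δ ⊆ F₀

/-- `ι` is a half turn near to a part `F₀` of its fixed point set: it is contained in a group `G` of isometries
which commute with `ι` and fix all the points of `F₀`, and for `u`, `w` near to a point of `F₀` some minimal
geodesic from `u` to `g w`, for some `g ∈ G`, contains a point `z` of `F₀` -/
def HalfTurn {X : Type} [MetricSpace X] (ι : X ≃ᵢ X) : Prop :=
  ∃ F₀ : Set X, Part ι F₀ ∧ ∃ G : Subgroup (X ≃ᵢ X), ι ∈ G ∧ (∀ g ∈ G, ∀ x, ι (g x) = g (ι x)) ∧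
    (∀ g ∈ G, ∀ z ∈ F₀, g z = z) ∧ ∃ δ : ℝ, 0 < δ ∧ ∀ y ∈ F₀, ∀ u w : X, dist y u < δ →
      dist y w < δ → ∃ g ∈ G, ∃ z ∈ F₀, dist u z + dist z (g w) = dist u (g w)

/-- maps of pairs `(K, A) → (X, F)`, `K` of dimension at most `q`, are homotopic relative to `A` to maps
into `F` -/
def Compressible (X : Type) [MetricSpace X] (F : Set X) (q : ℕ) : Prop :=
  ∀ (K : Type) [MetricSpace K] [CompactSpace K], CovDim K q → ∀ (f : K → X) (A : Set K),
    Continuous f → (∀ k ∈ A, f k ∈ F) → ∃ H : K → ℝ → X, Continuous (fun z : K × ℝ => H z.1 z.2) ∧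
      (∀ k, H k 0 ∈ F) ∧ (∀ k, H k 1 = f k) ∧ ∀ k ∈ A, ∀ s, H k s = f k

theorem locConv_mono {X : Type} [MetricSpace X] {r r' κ C : ℝ} (h : LocConv X r κ C)
    (hr : r' ≤ r) : LocConv X r' κ C :=
  ⟨fun z x y p t ht h1 h2 h3 => h.conv z x y p t ht (h1.trans_le hr) (h2.trans_le hr)
      (h3.trans_le hr),
    fun z x y p t ht h1 h2 h3 => h.strong z x y p t ht (h1.trans_le hr) (h2.trans_le hr)
      (h3.trans_le hr),
    fun x y p x' y' q t ht h1 h2 h3 h4 => h.joint x y p x' y' q t ht (h1.trans_le hr)
      (h2.trans_le hr) (h3.trans_le hr) (h4.trans_le hr)⟩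

/-- a reflection is a half turn with `G` generated by `ι` -/
theorem halfTurn_of_reflection {X : Type} [MetricSpace X] (hX : GeodSpace X) (ι : X ≃ᵢ X)
    (hι : ∀ x, ι (ι x) = x) (h : Reflection ι) : HalfTurn ι := by
  obtain ⟨F₀, hF₀, δ, hδ, hrefl⟩ := h
  refine ⟨F₀, hF₀, Subgroup.zpowers ι, Subgroup.mem_zpowers ι, ?_, ?_, δ / 4, by positivity, ?_⟩
  · intro g hg x
    obtain ⟨k, rfl⟩ := Subgroup.mem_zpowers_iff.1 hg
    have := ((Commute.refl ι).zpow_right k).eq
    have h1 : (ι * ι ^ k) x = (ι ^ k * ι) x := by rw [this]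
    exact h1
  · intro g hg z hz
    set H : Subgroup (X ≃ᵢ X) :=
      { carrier := {g | ∀ z ∈ Fx ι, g z = z}
        mul_mem' := fun {a b} ha hb z hz => by
          show a (b z) = z
          rw [hb z hz, ha z hz]
        one_mem' := fun z _ => rfl
        inv_mem' := fun {a} ha z hz => by
          show a⁻¹ z = z
          conv_lhs => rw [← ha z hz]
          show (a⁻¹ * a) z = z
          rw [inv_mul_cancel]
          rfl } with hH
    have : Subgroup.zpowers ι ≤ H := by
      rw [Subgroup.zpowers_le]
      exact fun z hz => hz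
    exact this hg z (hF₀.2.1 hz)
  · intro y hy u w hu hw
    obtain ⟨D, hD, hcov, hint⟩ := hrefl y hy
    have hιy : ι y = y := hF₀.2.1 hy
    have hD' : IsClosed (ι '' D) := ι.toHomeomorph.isClosedMap D hD
    have hmem : ∀ x, x ∈ D → ι x ∈ ι '' D := fun x hx => mem_image_of_mem ι hx
    have hmem' : ∀ x, x ∈ ι '' D → ι x ∈ D := by
      rintro _ ⟨x, hx, rfl⟩
      rw [hι]
      exact hx
    -- geodesics between the two halves meet `F₀`
    have key : ∀ (A B : Set X), IsClosed A → IsClosed B → Metric.ball y δ ⊆ A ∪ B →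
        A ∩ B ∩ Metric.ball y δ ⊆ F₀ → ∀ u ∈ A, ∀ w ∈ B, dist y u < δ / 4 → dist y w < δ / 4 →
        ∃ z ∈ F₀, dist u z + dist z w = dist u w := by
      intro A B hA hB hAB hABF u hu w hw hyu hyw
      obtain ⟨c, h0, h1, h2⟩ := hX u w
      have hc : ContinuousOn c (Icc (0 : ℝ) 1) := by
        have : LipschitzOnWith (Real.toNNReal (dist u w)) c (Icc (0 : ℝ) 1) := by
          refine LipschitzOnWith.of_dist_le_mul fun s hs t ht => ?_
          rw [h2 s hs t ht, Real.coe_toNNReal _ dist_nonneg, Real.dist_eq, mul_comm]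
        exact this.continuousOn
      have hball : ∀ t ∈ Icc (0 : ℝ) 1, c t ∈ Metric.ball y δ := by
        intro t ht
        have e1 := h2 0 ⟨le_rfl, zero_le_one⟩ t ht
        rw [h0, zero_sub, abs_neg, abs_of_nonneg ht.1] at e1
        have e2 := dist_triangle_left u w y
        have e3 := dist_triangle y u (c t)
        have e4 : t * dist u w ≤ dist u w := by
          have := ht.2
          nlinarith [dist_nonneg (x := u) (y := w)]
        rw [Metric.mem_ball, dist_comm]
        linarith
      have hpre : IsPreconnected (c '' Icc (0 : ℝ) 1) := isPreconnected_Icc.image c hc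
      rw [isPreconnected_closed_iff] at hpre
      obtain ⟨z, ⟨t, ht, rfl⟩, hz⟩ := hpre A B hA hB (by
          rintro _ ⟨t, ht, rfl⟩
          exact hAB (hball t ht))
        ⟨u, ⟨0, ⟨le_rfl, zero_le_one⟩, h0⟩, hu⟩ ⟨w, ⟨1, ⟨zero_le_one, le_rfl⟩, h1⟩, hw⟩
      refine ⟨c t, hABF ⟨hz, hball t ht⟩, ?_⟩
      have e1 := h2 0 ⟨le_rfl, zero_le_one⟩ t ht
      have e2 := h2 t ht 1 ⟨zero_le_one, le_rfl⟩
      rw [h0, zero_sub, abs_neg, abs_of_nonneg ht.1] at e1
      rw [h1, abs_sub_comm, abs_of_nonneg (by linarith [ht.2])] at e2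
      rw [e1, e2]
      ring
    have hcov' : Metric.ball y δ ⊆ ι '' D ∪ D := by rw [union_comm]; exact hcov
    have hint' : ι '' D ∩ D ∩ Metric.ball y δ ⊆ F₀ := by rw [inter_comm (ι '' D)]; exact hint
    have hιw : dist y (ι w) < δ / 4 := by
      have := ι.dist_eq y w
      rw [hιy] at this
      rw [this]
      exact hw
    have hu' : u ∈ D ∪ ι '' D := hcov (by rw [Metric.mem_ball, dist_comm]; linarith)
    have hw' : w ∈ D ∪ ι '' D := hcov (by rw [Metric.mem_ball, dist_comm]; linarith)
    rcases hu' with hu' | hu'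
    · rcases hw' with hw' | hw'
      · exact ⟨ι, Subgroup.mem_zpowers ι, key D (ι '' D) hD hD' hcov hint u hu' _ (hmem w hw')
          hu hιw⟩
      · exact ⟨1, Subgroup.one_mem _, key D (ι '' D) hD hD' hcov hint u hu' _ hw' hu hw⟩
    · rcases hw' with hw' | hw'
      · exact ⟨1, Subgroup.one_mem _, key (ι '' D) D hD' hD hcov' hint' u hu' _ hw' hu hw⟩
      · exact ⟨ι, Subgroup.mem_zpowers ι, key (ι '' D) D hD' hD hcov' hint' u hu' _
          (hmem' w hw') hu hιw⟩

/-- points of two closed sets at distance at most `2 R` -/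
theorem near_parts {X : Type} [MetricSpace X] [CompactSpace X] (hX : GeodSpace X) {A B : Set X}
    (hA : IsClosed A) (hB : IsClosed B) (hAn : A.Nonempty) (hBn : B.Nonempty) {R : ℝ}
    (hR : ∀ x : X, ∃ z ∈ A ∪ B, dist z x ≤ R) : ∃ a ∈ A, ∃ b ∈ B, dist a b ≤ 2 * R := by
  obtain ⟨u, hu⟩ := hAn
  obtain ⟨w, hw⟩ := hBn
  have hR0 : 0 ≤ R := by
    obtain ⟨z, _, hz⟩ := hR u
    exact dist_nonneg.trans hz
  have hcl : ∀ S : Set X, IsClosed S → S.Nonempty → IsClosed {x | Metric.infDist x S ≤ R} :=
    fun S _ _ => isClosed_le (Metric.continuous_infDist_pt S) continuous_const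
  obtain ⟨c, h0, h1, h2⟩ := hX u w
  have hc : ContinuousOn c (Icc (0 : ℝ) 1) := by
    have : LipschitzOnWith (Real.toNNReal (dist u w)) c (Icc (0 : ℝ) 1) := by
      refine LipschitzOnWith.of_dist_le_mul fun s hs t ht => ?_
      rw [h2 s hs t ht, Real.coe_toNNReal _ dist_nonneg, Real.dist_eq, mul_comm]
    exact this.continuousOn
  have hpre : IsPreconnected (c '' Icc (0 : ℝ) 1) := isPreconnected_Icc.image c hc
  rw [isPreconnected_closed_iff] at hpre
  obtain ⟨x, -, hx⟩ := hpre {x | Metric.infDist x A ≤ R} {x | Metric.infDist x B ≤ R}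
    (hcl A hA ⟨u, hu⟩) (hcl B hB ⟨w, hw⟩) (by
      intro x _
      obtain ⟨z, hz | hz, hzx⟩ := hR x
      · exact Or.inl ((Metric.infDist_le_dist_of_mem hz).trans (by rw [dist_comm]; exact hzx))
      · exact Or.inr ((Metric.infDist_le_dist_of_mem hz).trans (by rw [dist_comm]; exact hzx)))
    ⟨u, ⟨0, ⟨le_rfl, zero_le_one⟩, h0⟩, by
      show Metric.infDist u A ≤ R
      rw [Metric.infDist_zero_of_mem hu]
      exact hR0⟩
    ⟨w, ⟨1, ⟨zero_le_one, le_rfl⟩, h1⟩, by
      show Metric.infDist w B ≤ R
      rw [Metric.infDist_zero_of_mem hw]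
      exact hR0⟩
  obtain ⟨a, ha, ha'⟩ := hA.isCompact.exists_infDist_eq_dist ⟨u, hu⟩ x
  obtain ⟨b, hb, hb'⟩ := hB.isCompact.exists_infDist_eq_dist ⟨w, hw⟩ x
  refine ⟨a, ha, b, hb, ?_⟩
  have e1 : Metric.infDist x A ≤ R := hx.1
  have e2 : Metric.infDist x B ≤ R := hx.2
  rw [ha'] at e1
  rw [hb'] at e2
  have := dist_triangle_left a b x
  linarith

theorem result (X : Type) [MetricSpace X] [CompactSpace X] [Nonempty X] (r κ C : ℝ) (hr : 0 < r)
    (hκ : 0 < κ) (hC : 0 ≤ C) (hX : GeodSpace X) (hl : LocConv X r κ C) (ι : X ≃ᵢ X)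
    (hι : ∀ x, ι (ι x) = x) (hR : Reflection ι ∨ HalfTurn ι) :
    (∀ R : ℝ, (∀ x : X, ∃ z ∈ Fx ι, dist z x ≤ R) →
      (∀ q : ℕ, 1 ≤ q → ClosedGeod X (4 * q * R) ∨ Compressible X (Fx ι) q) ∧
      ∀ n : ℕ, 1 ≤ n → CovDim X n →
        (¬ ∃ g : C(X, X), (∀ x, g x ∈ Fx ι) ∧ g.Homotopic (ContinuousMap.id X)) →
        ClosedGeod X (4 * n * R)) ∧
    ∀ n : ℕ, 1 ≤ n → CovDim X n →
      (¬ ∃ g : C(X, X), (∀ x, g x ∈ Fx ι) ∧ g.Homotopic (ContinuousMap.id X)) →
      ClosedGeod X (4 * n * Metric.diam (univ : Set X)) := by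
  obtain ⟨F₀, ⟨⟨p, hp⟩, hF₀, hF₀c, hF₁c⟩, G, hG1, hG2, hG3, δ, hδ, hG4⟩ : HalfTurn ι := by
    rcases hR with h | h
    · exact halfTurn_of_reflection hX ι hι h
    · exact h
  have hmain : ∀ R : ℝ, (∀ x : X, ∃ z ∈ Fx ι, dist z x ≤ R) →
      (∀ q : ℕ, 1 ≤ q → ClosedGeod X (4 * q * R) ∨ Compressible X (Fx ι) q) ∧
      ∀ n : ℕ, 1 ≤ n → CovDim X n →
        (¬ ∃ g : C(X, X), (∀ x, g x ∈ Fx ι) ∧ g.Homotopic (ContinuousMap.id X)) →
        ClosedGeod X (4 * n * R) := by
    intro R hR
    have hR0 : 0 ≤ R := by
      obtain ⟨z, _, hz⟩ := hR p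
      exact dist_nonneg.trans hz
    have h1 : ∀ q : ℕ, 1 ≤ q → ClosedGeod X (4 * q * R) ∨ Compressible X (Fx ι) q := by
      intro q hq
      rcases (Fx ι \ F₀).eq_empty_or_nonempty with he | hne
      · -- `F₀` is the whole fixed point set
        have hF : Fx ι = F₀ := Subset.antisymm (sdiff_eq_empty.1 he) hF₀
        have hr' : 0 < min r δ := lt_min hr hδ
        have hl' : LocConv X (min r δ) κ C := locConv_mono hl (min_le_left _ _)
        have hS : Sym X (min r δ) (Fx ι) G ι := by
          rw [hF]
          exact ⟨hι, fun x hx => by rw [← hF]; exact hx, hG1, hG3, hG2,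
            fun y hy u w h1 h2 => hG4 y hy u w (h1.trans_le (min_le_right _ _))
              (h2.trans_le (min_le_right _ _))⟩
        by_contra hcon
        push Not at hcon
        apply hcon.2
        intro K _ _ hK f A hf hfA
        exact core hX hr' hκ hC hl' hS hR hq K hK f A hf hfA hcon.1
      · -- a shortest path between two parts
        left
        have hcov : F₀ ∪ (Fx ι \ F₀) = Fx ι := union_sdiff_cancel hF₀
        obtain ⟨a, ha, b, hb, hab⟩ := near_parts hX hF₀c hF₁c ⟨p, hp⟩ hne
          (fun x => by rw [hcov]; exact hR x)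
        have hS2 : {x : X | ∃ σ ∈ ({ι} : Set (X ≃ᵢ X)), σ x = x} = Fx ι := by
          ext x
          simp [Fx]
        have h2 := Pool.Agent.K7.H35.M.mirror hX (r := r / 2) (by linarith) (uniq hX hκ hl) {ι} 1
          le_rfl (by
            rintro σ rfl
            ext x
            exact hι x) (by
            rintro σ rfl τ rfl
            ext x
            exact hι x) F₀ (Fx ι \ F₀) hF₀c hF₁c disjoint_sdiff_right (by rw [hcov, hS2]) a b
          ha hb
        refine closed_mono h2 ?_
        have h3 : (1 : ℝ) ≤ q := by exact_mod_cast hq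
        push_cast
        nlinarith
    refine ⟨h1, fun n hn hdim hdef => ?_⟩
    rcases h1 n hn with h2 | h2
    · exact h2
    · exfalso
      apply hdef
      obtain ⟨H, k1, k2, k3, _⟩ := h2 X hdim (fun x => x) ∅ continuous_id (fun k hk => hk.elim)
      refine ⟨⟨fun x => H x 0, k1.comp (continuous_id.prodMk continuous_const)⟩, k2,
        ⟨⟨⟨fun z => H z.2 z.1.1, ?_⟩, ?_, ?_⟩⟩⟩
      · exact k1.comp (continuous_snd.prodMk (continuous_subtype_val.comp continuous_fst))
      · intro k
        rfl
      · intro k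
        exact k3 k
  refine ⟨hmain, fun n hn hdim hdef => ?_⟩
  have hbd : Bornology.IsBounded (univ : Set X) := isCompact_univ.isBounded
  have hdD : ∀ x y : X, dist x y ≤ Metric.diam (univ : Set X) := fun x y =>
    Metric.dist_le_diam_of_mem hbd (mem_univ x) (mem_univ y)
  exact (hmain _ fun x => ⟨p, hF₀ hp, hdD p x⟩).2 n hn hdim hdef

end Pool.Agent.Results.MP_3eff7f_gt.ReflectionsAndRotations
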